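import Pool.Agent.MP_3ce0a0_al.Q2T6L.Iso0
import Pool.Agent.MP_3ce0a0_al.Q2T6I.Asm

/-! The isometry lemma in the form used for the Dehn twist structure. -/

set_option autoImplicit false

namespace Pool.Agent.MP_3ce0a0_al.Q2T6L

theorem isoL : Q2T7.IsoL := by
  intro G _ U _ k a X _ _ ⟨e⟩ _ hV hS
  obtain ⟨x0⟩ := hV.ne
  exact iso_of_core U a X hV hS _ x0 _ (Q2T6I.ix_of_vs (FreeGroupBasis.ofRepr e) hV x0).core

end Pool.Agent.MP_3ce0a0_al.Q2T6L
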