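import Mathlib

/-!
A finite-dimensional space of real functions in which non-negative functions have infima: its
cone has finitely many extremal rays and is spanned by them.
-/

set_option autoImplicit false

namespace Pool.Agent.MP_3ce0a0_al.Q2T6L

noncomputable section

variable {I : Type} (W : Submodule ℝ (I → ℝ))

/-- Generators of extremal rays of the cone of non-negative functions in `W`. -/
def Atom (e : I → ℝ) : Prop :=
  e ∈ W ∧ 0 ≤ e ∧ e ≠ 0 ∧ ∀ f ∈ W, 0 ≤ f → f ≤ e → ∃ c : ℝ, f = c • e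

/-- Two non-negative functions of `W` have a greatest lower bound in `W`. -/
def HasInf : Prop := ∀ a ∈ W, ∀ b ∈ W, 0 ≤ a → 0 ≤ b →
  ∃ m ∈ W, 0 ≤ m ∧ m ≤ a ∧ m ≤ b ∧ ∀ h ∈ W, h ≤ a → h ≤ b → h ≤ m

/-- The functions dominated by `ν`. -/
def face (ν : I → ℝ) : Submodule ℝ (I → ℝ) where
  carrier := {h | h ∈ W ∧ ∃ c : ℝ, ∀ i, |h i| ≤ c * ν i}
  zero_mem' := ⟨W.zero_mem, 0, fun i => by simp⟩
  add_mem' := fun {a b} ⟨ha, c, hc⟩ ⟨hb, d, hd⟩ => ⟨W.add_mem ha hb, c + d, fun i => by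
    have := abs_add_le (a i) (b i)
    have := hc i
    have := hd i
    simp only [Pi.add_apply]
    linarith⟩
  smul_mem' := fun r a ⟨ha, c, hc⟩ => ⟨W.smul_mem r ha, |r| * c, fun i => by
    simp only [Pi.smul_apply, smul_eq_mul, abs_mul, mul_assoc]
    exact mul_le_mul_of_nonneg_left (hc i) (abs_nonneg r)⟩

variable {W}

theorem ex_pos {p : I → ℝ} (hp : 0 ≤ p) (h0 : p ≠ 0) : ∃ i, 0 < p i := by
  by_contra h
  push Not at h
  exact h0 (funext fun i => le_antisymm (h i) (hp i))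

theorem face_le {μ ν : I → ℝ} (hμ : 0 ≤ μ) (h : μ ≤ ν) : face W μ ≤ face W ν := by
  rintro f ⟨hf, c, hc⟩
  refine ⟨hf, |c|, fun i => (hc i).trans ?_⟩
  have h1 : 0 ≤ μ i := hμ i
  have h2 : μ i ≤ ν i := h i
  calc c * μ i ≤ |c| * μ i := mul_le_mul_of_nonneg_right (le_abs_self c) h1
    _ ≤ |c| * ν i := mul_le_mul_of_nonneg_left h2 (abs_nonneg c)

theorem mem_face {μ ν : I → ℝ} (hW : μ ∈ W) (hμ : 0 ≤ μ) (h : μ ≤ ν) : μ ∈ face W ν :=
  ⟨hW, 1, fun i => by rw [abs_of_nonneg (hμ i), one_mul]; exact h i⟩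

theorem reduce {p q : I → ℝ} (hp : 0 ≤ p) (h0 : p ≠ 0) (hq : 0 ≤ q) :
    ∃ t : ℝ, 0 ≤ t ∧ 0 ≤ q - t • p ∧ p ∉ face W (q - t • p) := by
  obtain ⟨j, hj⟩ := ex_pos hp h0
  set S : Set ℝ := {s | ∀ i, s * p i ≤ q i} with hS
  have hne : (0 : ℝ) ∈ S := fun i => by simpa using hq i
  have hb : BddAbove S := ⟨q j / p j, fun s hs => (le_div_iff₀ hj).2 (hs j)⟩
  have hle : ∀ i, sSup S * p i ≤ q i := by
    intro i
    rcases (hp i).eq_or_lt with h | h
    · have h' : p i = 0 := h.symm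
      simpa [h'] using hq i
    · exact (le_div_iff₀ h).1 (csSup_le ⟨0, hne⟩ fun s hs => (le_div_iff₀ h).2 (hs i))
  refine ⟨sSup S, le_csSup hb hne, fun i => by simpa using hle i, ?_⟩
  rintro ⟨-, c, hc⟩
  simp only [Pi.sub_apply, Pi.smul_apply, smul_eq_mul] at hc
  have hc0 : 0 < c := by
    have h1 := hc j
    rw [abs_of_pos hj] at h1
    by_contra h
    push Not at h
    have := mul_nonpos_of_nonpos_of_nonneg h (sub_nonneg.2 (hle j))
    linarith
  have : sSup S + c⁻¹ ∈ S := by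
    intro i
    have h1 := hc i
    rw [abs_of_nonneg (hp i)] at h1
    have h2 : c⁻¹ * p i ≤ q i - sSup S * p i := by
      rw [inv_mul_le_iff₀ hc0]
      exact h1
    linarith
  have h3 := le_csSup hb this
  have h4 := inv_pos.2 hc0
  linarith

theorem mem_span_atoms [FiniteDimensional ℝ W] (ν : I → ℝ) (hW : ν ∈ W) (hν : 0 ≤ ν) :
    ν ∈ Submodule.span ℝ {e | Atom W e} := by
  induction hn : Module.finrank ℝ (face W ν) using Nat.strong_induction_on generalizing ν with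
  | _ n ih =>
  by_cases h0 : ν = 0
  · rw [h0]
    exact Submodule.zero_mem _
  by_cases ha : Atom W ν
  · exact Submodule.subset_span ha
  have : ∃ f ∈ W, 0 ≤ f ∧ f ≤ ν ∧ ∀ c : ℝ, f ≠ c • ν := by
    by_contra h
    push Not at h
    exact ha ⟨hW, hν, h0, h⟩
  obtain ⟨f, hfW, hf, hfν, hc⟩ := this
  have hf0 : f ≠ 0 := by simpa using hc 0
  have hfd : FiniteDimensional ℝ (face W ν) :=
    Submodule.finiteDimensional_of_le (S₂ := W) fun _ h => h.1
  obtain ⟨t, ht, ht1, ht2⟩ := reduce (W := W) hf hf0 hν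
  obtain ⟨s, hs, hs1, hs2⟩ := reduce (W := W) hν h0 hf
  have l1 : ν - t • f ≤ ν := sub_le_self _ (smul_nonneg ht hf)
  have l2 : f - s • ν ≤ ν := (sub_le_self _ (smul_nonneg hs hν)).trans hfν
  have m1 := ih _ (hn ▸ Submodule.finrank_lt_finrank_of_lt (lt_of_le_of_ne (face_le ht1 l1)
    fun h => ht2 (h ▸ mem_face hfW hf hfν))) _ (W.sub_mem hW (W.smul_mem t hfW)) ht1 rfl
  have m2 := ih _ (hn ▸ Submodule.finrank_lt_finrank_of_lt (lt_of_le_of_ne (face_le hs1 l2)
    fun h => hs2 (h ▸ mem_face hW hν le_rfl))) _ (W.sub_mem hfW (W.smul_mem s hW)) hs1 rfl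
  have key : (ν - t • f) + t • (f - s • ν) = (1 - t * s) • ν := by
    rw [smul_sub, smul_smul, sub_smul, one_smul]
    abel
  by_cases hts : 1 - t * s = 0
  · exfalso
    rw [hts, zero_smul] at key
    have h1 : ν - t • f = 0 :=
      le_antisymm (by rw [← key]; exact le_add_of_nonneg_right (smul_nonneg ht hs1)) ht1
    refine hc s ?_
    rw [sub_eq_zero.1 h1, smul_smul, show s * t = 1 by linarith, one_smul]
  · have h1 := Submodule.add_mem _ m1 (Submodule.smul_mem _ t m2)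
    rw [key] at h1
    exact (Submodule.smul_mem_iff _ hts).1 h1

/-- A positive multiple of `e` lies below `a`. -/
def Dom (e a : I → ℝ) : Prop := ∃ c : ℝ, 0 < c ∧ c • e ≤ a

theorem Atom.smul {e : I → ℝ} (he : Atom W e) {c : ℝ} (hc : 0 < c) : Atom W (c • e) := by
  refine ⟨W.smul_mem c he.1, smul_nonneg hc.le he.2.1, smul_ne_zero hc.ne' he.2.2.1, ?_⟩
  intro f hf h0 hle
  obtain ⟨d, hd⟩ := he.2.2.2 (c⁻¹ • f) (W.smul_mem _ hf) (smul_nonneg (inv_pos.2 hc).le h0)
    ((inv_smul_le_iff_of_pos hc).2 hle)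
  refine ⟨d, ?_⟩
  rw [smul_comm, ← hd, smul_smul, mul_inv_cancel₀ hc.ne', one_smul]

theorem dom_add (hI : HasInf W) {e a b : I → ℝ} (he : Atom W e) (ha : a ∈ W) (hb : b ∈ W)
    (ha0 : 0 ≤ a) (hb0 : 0 ≤ b) (h : Dom e (a + b)) : Dom e a ∨ Dom e b := by
  obtain ⟨c, hc, hle⟩ := h
  have he' := he.smul hc
  obtain ⟨m, hm, hm0, hm1, hm2, hm3⟩ := hI _ he'.1 a ha he'.2.1 ha0
  obtain ⟨d, hd⟩ := he'.2.2.2 m hm hm0 hm1
  by_cases hd0 : 0 < d
  · exact Or.inl ⟨d * c, mul_pos hd0 hc, by rw [← smul_smul, ← hd]; exact hm2⟩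
  · push Not at hd0
    refine Or.inr ⟨c, hc, ?_⟩
    have h1 := hm3 (c • e - b) (W.sub_mem he'.1 hb) (sub_le_self _ hb0) (sub_le_iff_le_add.2 hle)
    have h2 : m ≤ 0 := hd ▸ smul_nonpos_of_nonpos_of_nonneg hd0 he'.2.1
    exact sub_nonpos.1 (h1.trans h2)

theorem dom_sum (hI : HasInf W) {J : Type} {e : I → ℝ} (he : Atom W e) (a : J → I → ℝ)
    (s : Finset J) (ha : ∀ j ∈ s, a j ∈ W ∧ 0 ≤ a j) (h : Dom e (∑ j ∈ s, a j)) :
    ∃ j ∈ s, Dom e (a j) := by
  classical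
  induction s using Finset.induction_on with
  | empty =>
    exfalso
    obtain ⟨c, hc, hle⟩ := h
    have he' := he.smul hc
    exact he'.2.2.1 (le_antisymm (by simpa using hle) he'.2.1)
  | insert j s hj ih =>
    rw [Finset.sum_insert hj] at h
    have h1 := ha j (Finset.mem_insert_self _ _)
    have h2 : ∀ k ∈ s, a k ∈ W ∧ 0 ≤ a k := fun k hk => ha k (Finset.mem_insert_of_mem hk)
    rcases dom_add hI he h1.1 (W.sum_mem fun k hk => (h2 k hk).1) h1.2
      (Finset.sum_nonneg fun k hk => (h2 k hk).2) h with h | h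
    · exact ⟨j, Finset.mem_insert_self _ _, h⟩
    · obtain ⟨k, hk, hd⟩ := ih h2 h
      exact ⟨k, Finset.mem_insert_of_mem hk, hd⟩

theorem span_eq_of_dom {e f : I → ℝ} (he : Atom W e) (hf : Atom W f) {r : ℝ} (hr : 0 < r)
    (h : Dom e (r • f)) : Submodule.span ℝ {e} = Submodule.span ℝ {f} := by
  obtain ⟨c, hc, hle⟩ := h
  have he' := he.smul hc
  obtain ⟨d, hd⟩ := (hf.smul hr).2.2.2 _ he'.1 he'.2.1 hle
  have hd0 : d * r ≠ 0 := by
    intro h
    rw [smul_smul, h, zero_smul] at hd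
    exact he'.2.2.1 hd
  rw [← Submodule.span_singleton_smul_eq (IsUnit.mk0 c hc.ne') e, hd, smul_smul,
    Submodule.span_singleton_smul_eq (IsUnit.mk0 _ hd0)]

theorem atoms_indep (hI : HasInf W) {J : Type} (e : J → I → ℝ) (he : ∀ j, Atom W (e j))
    (hne : ∀ j k, Submodule.span ℝ {e j} = Submodule.span ℝ {e k} → j = k) :
    LinearIndependent ℝ e := by
  classical
  have key : ∀ (s : Finset J) (g : J → ℝ), ∑ j ∈ s, g j • e j = 0 → ∀ j ∈ s, g j ≤ 0 := by
    intro s g hg j hj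
    by_contra hpos
    push Not at hpos
    rw [← Finset.sum_filter_add_sum_filter_not s fun k => g k < 0] at hg
    have h1 : g j • e j ≤ ∑ k ∈ s.filter fun k => ¬ g k < 0, g k • e k :=
      Finset.single_le_sum (f := fun k => g k • e k)
        (fun k hk => smul_nonneg (not_lt.1 (Finset.mem_filter.1 hk).2) (he k).2.1)
        (Finset.mem_filter.2 ⟨hj, not_lt.2 hpos.le⟩)
    have h2 : ∑ k ∈ s.filter fun k => ¬ g k < 0, g k • e k =
        ∑ k ∈ s.filter fun k => g k < 0, (-g k) • e k := by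
      simp only [neg_smul, Finset.sum_neg_distrib]
      exact eq_neg_of_add_eq_zero_right hg
    obtain ⟨k, hk, hd⟩ := dom_sum hI (he j) (fun k => (-g k) • e k) (s.filter fun k => g k < 0)
      (fun k hk => ⟨W.smul_mem _ (he k).1,
        smul_nonneg (neg_nonneg.2 (Finset.mem_filter.1 hk).2.le) (he k).2.1⟩)
      ⟨g j, hpos, h2 ▸ h1⟩
    have hk' := (Finset.mem_filter.1 hk).2
    have := hne j k (span_eq_of_dom (he j) (he k) (neg_pos.2 hk') hd)
    subst this
    linarith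
  rw [linearIndependent_iff']
  intro s g hg j hj
  refine le_antisymm (key s g hg j hj) ?_
  have := key s (fun k => -g k) (by simp only [neg_smul, Finset.sum_neg_distrib, hg, neg_zero]) j hj
  simpa using this

variable (W) in
/-- The extremal rays. -/
def Ray : Type := {L : Submodule ℝ (I → ℝ) // ∃ e, Atom W e ∧ L = Submodule.span ℝ {e}}

theorem finite_ray [FiniteDimensional ℝ W] (hI : HasInf W) : Finite (Ray W) := by
  have h := atoms_indep hI (fun L : Ray W => L.2.choose) (fun L => L.2.choose_spec.1)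
    fun j k h => Subtype.ext (by rw [j.2.choose_spec.2, k.2.choose_spec.2]; exact h)
  have h' : LinearIndependent ℝ fun L : Ray W => (⟨L.2.choose, L.2.choose_spec.1.1⟩ : W) :=
    LinearIndependent.of_comp W.subtype h
  exact h'.finite

end

end Pool.Agent.MP_3ce0a0_al.Q2T6L
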