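import Pool.Agent.MP_3ce0a0_al.Q2T1.Defs
import Pool.Agent.MP_3ce0a0_al.Q2T6L.Cone

/-! Invariant additive functions on a tree-space; existence of infima. -/

set_option autoImplicit false

namespace Pool.Agent.MP_3ce0a0_al.Q2T6L

open Q2T1

noncomputable section

variable {G X : Type} [Group G] [MetricSpace X] [MulAction G X]

variable (X) in
/-- The symmetric functions that are additive along betweenness and invariant under `U`. -/
def Add (U : Subgroup G) : Submodule ℝ (X × X → ℝ) where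
  carrier := {ν | (∀ x y, ν (x, y) = ν (y, x)) ∧
    (∀ x m y, Btw x m y → ν (x, m) + ν (m, y) = ν (x, y)) ∧
    ∀ g ∈ U, ∀ x y, ν (g • x, g • y) = ν (x, y)}
  zero_mem' := ⟨fun _ _ => rfl, fun _ _ _ _ => add_zero _, fun _ _ _ _ => rfl⟩
  add_mem' := fun {a b} ha hb => ⟨fun x y => by rw [Pi.add_apply, Pi.add_apply, ha.1, hb.1],
    fun x m y h => by
      simp only [Pi.add_apply, ← ha.2.1 x m y h, ← hb.2.1 x m y h]
      ring,
    fun g hg x y => by rw [Pi.add_apply, Pi.add_apply, ha.2.2 g hg, hb.2.2 g hg]⟩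
  smul_mem' := fun r a ha => ⟨fun x y => by rw [Pi.smul_apply, Pi.smul_apply, ha.1],
    fun x m y h => by simp only [Pi.smul_apply, ← ha.2.1 x m y h, smul_add],
    fun g hg x y => by rw [Pi.smul_apply, Pi.smul_apply, ha.2.2 g hg]⟩

theorem btw_symm {x m y : X} (h : Btw x m y) : Btw y m x := by
  unfold Q2T1.Btw at *
  rw [dist_comm y m, dist_comm m x, dist_comm y x]
  linarith

theorem btw_split [IsTree X] {x m z y : X} (hm : Btw x m y) (hz : Btw x z y) :
    (Btw x z m ∧ Btw z m y) ∨ (Btw m z y ∧ Btw x m z) := by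
  unfold Q2T1.Btw at *
  have h4 := IsTree.four x y z m
  have t1 := dist_triangle x z m
  have t2 := dist_triangle z m y
  have t3 := dist_triangle m z y
  have t4 := dist_triangle x m z
  have c1 := dist_comm y m
  have c2 := dist_comm y z
  have c3 := dist_comm z m
  rcases le_max_iff.1 h4 with h | h
  · right
    constructor <;> linarith
  · left
    constructor <;> linarith

/-- Sums of `c` over subdivisions of a segment. -/
inductive Chn (c : X × X → ℝ) : X → X → ℝ → Prop
  | base (x y : X) : Chn c x y (c (x, y))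
  | split {x m y : X} {s t : ℝ} : Btw x m y → Chn c x m s → Chn c m y t → Chn c x y (s + t)

theorem Chn.symm {c : X × X → ℝ} (hc : ∀ x y, c (x, y) = c (y, x)) {x y : X} {s : ℝ}
    (h : Chn c x y s) : Chn c y x s := by
  induction h with
  | base x y => exact hc x y ▸ Chn.base y x
  | split hb _ _ h1 h2 =>
    rw [add_comm]
    exact Chn.split (btw_symm hb) h2 h1

theorem Chn.smul [BAct G X] {c : X × X → ℝ} {g : G} (hc : ∀ x y, c (g • x, g • y) = c (x, y))
    {x y : X} {s : ℝ} (h : Chn c x y s) : Chn c (g • x) (g • y) s := by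
  induction h with
  | base x y => exact hc x y ▸ Chn.base _ _
  | split hb _ _ h1 h2 => exact Chn.split (BAct.btw g _ _ _ hb) h1 h2

theorem Chn.le {c h : X × X → ℝ} (hh : ∀ x m y, Btw x m y → h (x, m) + h (m, y) = h (x, y))
    (hle : h ≤ c) {x y : X} {s : ℝ} (hs : Chn c x y s) : h (x, y) ≤ s := by
  induction hs with
  | base x y => exact hle _
  | split hb _ _ h1 h2 => exact hh _ _ _ hb ▸ add_le_add h1 h2

theorem Chn.cut [IsTree X] {c : X × X → ℝ}
    (hc : ∀ x m y, Btw x m y → c (x, m) + c (m, y) ≤ c (x, y)) {x y : X} {s : ℝ}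
    (hs : Chn c x y s) : ∀ z, Btw x z y → ∃ a b, Chn c x z a ∧ Chn c z y b ∧ a + b ≤ s := by
  induction hs with
  | base x y => exact fun z hz => ⟨_, _, Chn.base _ _, Chn.base _ _, hc _ _ _ hz⟩
  | split hb k1 k2 h1 h2 =>
    intro z hz
    rcases btw_split hb hz with ⟨p, q⟩ | ⟨p, q⟩
    · obtain ⟨a, b, ha, hb', hab⟩ := h1 z p
      exact ⟨a, _, ha, Chn.split q hb' k2, by linarith⟩
    · obtain ⟨a, b, ha, hb', hab⟩ := h2 z p
      exact ⟨_, b, Chn.split q k1 ha, hb', by linarith⟩

theorem hasInf_add [IsTree X] [BAct G X] (U : Subgroup G) : HasInf (Add X U) := by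
  intro a ha b hb ha0 hb0
  set c : X × X → ℝ := a ⊓ b with hc
  have c1 : ∀ x y, c (x, y) = c (y, x) := fun x y => by
    simp only [hc, Pi.inf_apply, ha.1 x y, hb.1 x y]
  have c2 : ∀ x m y, Btw x m y → c (x, m) + c (m, y) ≤ c (x, y) := fun x m y h => by
    simp only [hc, Pi.inf_apply, ← ha.2.1 x m y h, ← hb.2.1 x m y h]
    exact le_min (add_le_add (min_le_left _ _) (min_le_left _ _))
      (add_le_add (min_le_right _ _) (min_le_right _ _))
  have c3 : ∀ g ∈ U, ∀ x y, c (g • x, g • y) = c (x, y) := fun g hg x y => by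
    simp only [hc, Pi.inf_apply, ha.2.2 g hg x y, hb.2.2 g hg x y]
  have c0 : ∀ x y s, Chn c x y s → 0 ≤ s := fun x y s hs =>
    Chn.le (h := 0) (fun _ _ _ _ => add_zero _) (le_inf ha0 hb0) hs
  have ne : ∀ x y, {s | Chn c x y s}.Nonempty := fun x y => ⟨_, Chn.base x y⟩
  have bd : ∀ x y, BddBelow {s | Chn c x y s} := fun x y => ⟨0, c0 x y⟩
  have mc : (fun p : X × X => sInf {s | Chn c p.1 p.2 s}) ≤ c := fun p =>
    csInf_le (bd _ _) (Chn.base p.1 p.2)
  refine ⟨fun p => sInf {s | Chn c p.1 p.2 s}, ⟨fun x y => ?_, fun x m y h => ?_,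
    fun g hg x y => ?_⟩, fun p => le_csInf (ne _ _) (c0 _ _), mc.trans inf_le_left,
    mc.trans inf_le_right, fun h hh h1 h2 p => le_csInf (ne _ _) fun s hs =>
      Chn.le hh.2.1 (le_inf h1 h2) hs⟩
  · exact congrArg sInf (Set.ext fun s => ⟨Chn.symm c1, Chn.symm c1⟩)
  · refine le_antisymm (le_csInf (ne _ _) fun s hs => ?_) ?_
    · obtain ⟨u, v, hu, hv, huv⟩ := Chn.cut c2 hs m h
      exact (add_le_add (csInf_le (bd _ _) hu) (csInf_le (bd _ _) hv)).trans huv
    · rw [← sub_le_iff_le_add]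
      refine le_csInf (ne _ _) fun u hu => ?_
      rw [sub_le_comm]
      refine le_csInf (ne _ _) fun v hv => ?_
      rw [sub_le_iff_le_add']
      exact csInf_le (bd _ _) (Chn.split h hu hv)
  · refine congrArg sInf (Set.ext fun s => ⟨fun hs => ?_, Chn.smul (c3 g hg)⟩)
    have := Chn.smul (c3 g⁻¹ (U.inv_mem hg)) hs
    rwa [inv_smul_smul, inv_smul_smul] at this

end

end Pool.Agent.MP_3ce0a0_al.Q2T6L
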