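import Pool.Agent.MP_3ce0a0_al.Q2T6L.Main
import Pool.Agent.MP_3ce0a0_al.Q2T7.Defs

/-! A power of a class with vanishing characters acts by isometries. -/

set_option autoImplicit false

namespace Pool.Agent.MP_3ce0a0_al.Q2T6L

open Q2T1 Q2T5 Q2T7

theorem iso_of_core {G : Type} [Group G] (U : Subgroup G) [U.Normal] (a : G) (X : Type)
    [MetricSpace X] [MulAction G X] (hV : VS U X) (hS : StarU U a) {ι : Type} [Fintype ι]
    (e : ι → U) (x0 : X) (N : ℕ) (hC : Core e x0 N) :
    ∃ N : ℕ, 0 < N ∧ ∀ x y : X, dist (a ^ N • x) (a ^ N • y) = dist x y := by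
  have := hV.tree
  have := hV.bact
  have := finite_add U (a := fun i => (e i : G)) (fun i => (e i).2) (x0 := x0) (N := N) hC
  refine isom_pow U hV.isom a fun C hC hU l hl n h => hS C ?_ l hl _ n ?_
  · rwa [sup_eq_left.2 hU]
  · change a ^ n * (a ^ n)⁻¹ ∈ U
    rw [mul_inv_cancel]
    exact U.one_mem

end Pool.Agent.MP_3ce0a0_al.Q2T6L
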