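import Pool.Agent.MP_3ce0a0_al.Q2T6L.Cone

/-! A group that preserves the space of functions permutes the extremal rays. -/

set_option autoImplicit false

namespace Pool.Agent.MP_3ce0a0_al.Q2T6L

noncomputable section

variable {I G : Type} [Group G] [MulAction G I] {W : Submodule ℝ (I → ℝ)}

/-- Composition with the action of `g`. -/
def pull (I : Type) [MulAction G I] (g : G) : (I → ℝ) →ₗ[ℝ] (I → ℝ) :=
  LinearMap.funLeft ℝ ℝ fun i => g • i

theorem pull_apply (g : G) (f : I → ℝ) (i : I) : pull I g f i = f (g • i) := rfl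

theorem pull_pull (g h : G) (f : I → ℝ) : pull I g (pull I h f) = pull I (h * g) f :=
  funext fun i => by simp only [pull_apply, mul_smul]

theorem pull_one (f : I → ℝ) : pull I (1 : G) f = f :=
  funext fun i => by simp only [pull_apply, one_smul]

theorem Atom.pull (hG : ∀ g : G, ∀ f ∈ W, pull I g f ∈ W) {e : I → ℝ} (he : Atom W e) (g : G) :
    Atom W (pull I g e) := by
  refine ⟨hG g e he.1, fun i => he.2.1 (g • i), fun h => he.2.2.1 ?_, fun f hf h0 hle => ?_⟩
  · rw [← pull_one (G := G) e, ← mul_inv_cancel g, ← pull_pull, h, map_zero]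
  · obtain ⟨c, hc⟩ := he.2.2.2 (Q2T6L.pull I g⁻¹ f) (hG _ f hf) (fun i => h0 (g⁻¹ • i)) fun i => by
      simpa only [pull_apply, smul_inv_smul] using hle (g⁻¹ • i)
    refine ⟨c, ?_⟩
    rw [← map_smul, ← hc, pull_pull, inv_mul_cancel, pull_one]

/-- The action on the rays. -/
@[reducible] def rayAct (hG : ∀ g : G, ∀ f ∈ W, pull I g f ∈ W) : MulAction G (Ray W) where
  smul g L := ⟨L.1.map (pull I g⁻¹), by
    obtain ⟨e, he, hL⟩ := L.2
    exact ⟨_, he.pull hG g⁻¹, by rw [hL, Submodule.map_span, Set.image_singleton]⟩⟩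
  one_smul L := Subtype.ext (by
    change L.1.map (pull I (1 : G)⁻¹) = L.1
    rw [inv_one, show pull I (1 : G) = LinearMap.id from LinearMap.ext pull_one, Submodule.map_id])
  mul_smul g h L := Subtype.ext (by
    change L.1.map (pull I (g * h)⁻¹) = (L.1.map (pull I h⁻¹)).map (pull I g⁻¹)
    rw [← Submodule.map_comp, mul_inv_rev]
    exact congrArg (fun T => L.1.map T) (LinearMap.ext fun f => (pull_pull _ _ f).symm))

theorem scal_hom (C : Subgroup G) {e : I → ℝ} (he : Atom W e)
    (h : ∀ g ∈ C, ∃ c : ℝ, pull I g e = c • e) :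
    ∃ l : C →* Multiplicative ℝ, ∀ g : C, l g = 1 ↔ pull I (g : G) e = e := by
  obtain ⟨j, hj⟩ := ex_pos he.2.1 he.2.2.1
  have h1 : ∀ g ∈ C, ∀ i, e (g • i) = e (g • j) / e j * e i := by
    intro g hg i
    obtain ⟨c, hc⟩ := h g hg
    have h2 : ∀ k, e (g • k) = c * e k := fun k => congrFun hc k
    rw [h2 i, h2 j, mul_div_cancel_right₀ _ hj.ne']
  have h2 : ∀ g ∈ C, 0 < e (g • j) := by
    intro g hg
    refine lt_of_le_of_ne (he.2.1 _) fun h0 => ?_
    have := h1 g hg (g⁻¹ • j)
    rw [smul_inv_smul, ← h0] at this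
    simp only [Pi.zero_apply, zero_div, zero_mul] at this
    exact hj.ne' this
  refine ⟨MonoidHom.mk' (fun g : C => Multiplicative.ofAdd (Real.log (e ((g : G) • j) / e j)))
    fun g k => ?_, fun g => ⟨fun hg => ?_, fun hg => ?_⟩⟩
  · rw [← ofAdd_add, ← Real.log_mul (div_pos (h2 _ g.2) hj).ne' (div_pos (h2 _ k.2) hj).ne',
      Subgroup.coe_mul, mul_smul, h1 g g.2, mul_div_assoc]
  · have h3 : Real.log (e ((g : G) • j) / e j) = 0 := hg
    have h4 := Real.eq_one_of_pos_of_log_eq_zero (div_pos (h2 _ g.2) hj) h3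
    funext i
    rw [pull_apply, h1 g g.2, h4, one_mul]
  · change Multiplicative.ofAdd (Real.log (e ((g : G) • j) / e j)) = 1
    rw [show e ((g : G) • j) = e j from congrFun hg j, div_self hj.ne', Real.log_one, ofAdd_zero]

/-- A subgroup of finite index acts on the cone through finitely many real characters. -/
theorem rays [FiniteDimensional ℝ W] (hI : HasInf W) (hG : ∀ g : G, ∀ f ∈ W, pull I g f ∈ W) :
    ∃ C : Subgroup G, C.Normal ∧ C.FiniteIndex ∧
      (∀ g : G, (∀ f ∈ W, pull I g f = f) → g ∈ C) ∧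
      ∃ (J : Type) (_ : Finite J) (l : J → C →* Multiplicative ℝ),
        (∀ j (g : C), (∀ f ∈ W, pull I (g : G) f = f) → l j g = 1) ∧
        ∀ g : C, (∀ j, l j g = 1) → ∀ f ∈ W, 0 ≤ f → pull I (g : G) f = f := by
  let _ := rayAct hG
  have := finite_ray hI
  have hker : ∀ g : G, g ∈ (MulAction.toPermHom G (Ray W)).ker ↔
      ∀ L : Ray W, L.1.map (pull I g⁻¹) = L.1 := by
    intro g
    rw [MonoidHom.mem_ker, Equiv.ext_iff]
    exact forall_congr' fun L => Subtype.ext_iff
  have hsc : ∀ e, Atom W e → ∀ g ∈ (MulAction.toPermHom G (Ray W)).ker,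
      ∃ c : ℝ, pull I g e = c • e := by
    intro e he g hg
    have h1 := (hker _).1 (Subgroup.inv_mem _ hg) ⟨_, e, he, rfl⟩
    rw [inv_inv] at h1
    have h2 : pull I g e ∈ Submodule.span ℝ {e} :=
      h1.le (Submodule.mem_map_of_mem (Submodule.mem_span_singleton_self e))
    obtain ⟨c, hc⟩ := Submodule.mem_span_singleton.1 h2
    exact ⟨c, hc.symm⟩
  choose l hl using fun L : Ray W => scal_hom _ L.2.choose_spec.1 (hsc _ L.2.choose_spec.1)
  refine ⟨_, inferInstance, inferInstance, fun g hg => (hker g).2 fun L => ?_, Ray W, this, l,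
    fun L g hg => (hl L g).2 (hg _ L.2.choose_spec.1.1), fun g hg f hf h0 => ?_⟩
  · obtain ⟨e, he, hL⟩ := L.2
    rw [hL, Submodule.map_span, Set.image_singleton]
    nth_rewrite 1 [← hg e he.1]
    rw [pull_pull, mul_inv_cancel, pull_one]
  · have h1 : Submodule.span ℝ {e | Atom W e} ≤ LinearMap.eqLocus (pull I (g : G)) LinearMap.id := by
      refine Submodule.span_le.2 fun e he => ?_
      let L : Ray W := ⟨_, e, he, rfl⟩
      have h2 : e ∈ Submodule.span ℝ {L.2.choose} :=
        L.2.choose_spec.2.le (Submodule.mem_span_singleton_self e)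
      obtain ⟨c, hc⟩ := Submodule.mem_span_singleton.1 h2
      change pull I (g : G) e = e
      rw [← hc, map_smul, (hl L g).1 (hg L)]
    exact h1 (mem_span_atoms f hf h0)

end

end Pool.Agent.MP_3ce0a0_al.Q2T6L
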