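import Pool.Agent.MP_3ce0a0_al.Q2T6L.Rank
import Pool.Agent.MP_3ce0a0_al.Q2T6L.Rays

/-! Betweenness preserving actions that normalise an isometric action: a subgroup of finite index
rescales the metric through finitely many real characters. -/

set_option autoImplicit false

namespace Pool.Agent.MP_3ce0a0_al.Q2T6L

open Q2T1

noncomputable section

variable {G X : Type} [Group G] [MetricSpace X] [MulAction G X]

theorem pull_mem [BAct G X] (U : Subgroup G) [hn : U.Normal] (g : G) (f : X × X → ℝ)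
    (hf : f ∈ Add X U) : pull (X × X) g f ∈ Add X U := by
  refine ⟨fun x y => hf.1 (g • x) (g • y),
    fun x m y h => hf.2.1 _ _ _ (BAct.btw g _ _ _ h), fun u hu x y => ?_⟩
  change f (g • u • x, g • u • y) = f (g • x, g • y)
  rw [← hf.2.2 _ (hn.conj_mem u hu g) (g • x) (g • y)]
  simp only [mul_smul, inv_smul_smul]

/-- The Lattice Lemma with (R): finitely many characters of a subgroup of finite index detect the
isometries. -/
theorem lattice [IsTree X] [BAct G X] (U : Subgroup G) [U.Normal]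
    (hU : ∀ g ∈ U, ∀ x y : X, dist (g • x) (g • y) = dist x y)
    [FiniteDimensional ℝ (Add X U)] :
    ∃ C : Subgroup G, C.Normal ∧ C.FiniteIndex ∧ U ≤ C ∧
      ∃ (J : Type) (_ : Finite J) (l : J → C →* Multiplicative ℝ),
        (∀ j (g : C), (g : G) ∈ U → l j g = 1) ∧
        ∀ g : C, (∀ j, l j g = 1) → ∀ x y : X, dist ((g : G) • x) ((g : G) • y) = dist x y := by
  obtain ⟨C, h1, h2, h3, J, hJ, l, h4, h5⟩ := rays (hasInf_add (X := X) U) (pull_mem U)
  have hfix : ∀ g ∈ U, ∀ f ∈ Add X U, pull (X × X) g f = f := fun g hg f hf =>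
    funext fun p => hf.2.2 g hg p.1 p.2
  refine ⟨C, h1, h2, fun g hg => h3 g (hfix g hg), J, hJ, l, fun j g hg => h4 j g (hfix g hg),
    fun g hg x y => ?_⟩
  exact congrFun (h5 g hg (fun p => dist p.1 p.2)
    ⟨dist_comm, fun _ _ _ h => h, hU⟩ fun p => dist_nonneg) (x, y)

/-- If all real characters of subgroups of finite index containing `U`, trivial on `U`, kill the
powers of `φ`, then a power of `φ` is an isometry. -/
theorem isom_pow [IsTree X] [BAct G X] (U : Subgroup G) [U.Normal]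
    (hU : ∀ g ∈ U, ∀ x y : X, dist (g • x) (g • y) = dist x y)
    [FiniteDimensional ℝ (Add X U)] (φ : G)
    (hφ : ∀ C : Subgroup G, C.FiniteIndex → U ≤ C → ∀ l : C →* Multiplicative ℝ,
      (∀ g : C, (g : G) ∈ U → l g = 1) → ∀ (n : ℕ) (h : φ ^ n ∈ C), l ⟨φ ^ n, h⟩ = 1) :
    ∃ N : ℕ, 0 < N ∧ ∀ x y : X, dist (φ ^ N • x) (φ ^ N • y) = dist x y := by
  obtain ⟨C, h1, h2, h3, J, -, l, h4, h5⟩ := lattice U hU
  exact ⟨C.index, Nat.pos_of_ne_zero h2.index_ne_zero,
    h5 ⟨_, C.pow_index_mem φ⟩ fun j => hφ C h2 h3 (l j) (h4 j) _ _⟩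

end

end Pool.Agent.MP_3ce0a0_al.Q2T6L
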