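import Pool.Agent.MP_3ce0a0_al.Q2T6L.Inf

/-! The space of invariant additive functions has finite dimension. -/

set_option autoImplicit false

namespace Pool.Agent.MP_3ce0a0_al.Q2T6L

open Q2T1

noncomputable section

variable {G X : Type} [Group G] [MetricSpace X] [MulAction G X]

/-- Every finite set lies in a finite median closed set `V` such that the graph induced on `V` by
the generators `a i` has at most `N` components. -/
def Core {ι : Type} (a : ι → G) (x0 : X) (N : ℕ) : Prop :=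
  ∀ F : Finset X, ∃ V : Finset X, F ⊆ V ∧ x0 ∈ V ∧ (∀ i, a i • x0 ∈ V) ∧ MedCl (V : Set X) ∧
    ∃ R : Finset X, R.card ≤ N ∧ ∀ v ∈ V, ∃ r ∈ R,
      Relation.EqvGen (fun p q => p ∈ V ∧ q ∈ V ∧ ∃ i, q = a i • p) r v

/-- Evaluation at a pair. -/
def evl (U : Subgroup G) (p : X × X) : Module.Dual ℝ (Add X U) :=
  (LinearMap.proj p).comp (Add X U).subtype

variable (U : Subgroup G)

theorem evl_symm (x y : X) : evl U (x, y) = evl U (y, x) := LinearMap.ext fun ν => ν.2.1 x y

theorem evl_add {x m y : X} (h : Btw x m y) : evl U (x, m) + evl U (m, y) = evl U (x, y) :=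
  LinearMap.ext fun ν => ν.2.2.1 x m y h

theorem evl_smul {g : G} (hg : g ∈ U) (x y : X) : evl U (g • x, g • y) = evl U (x, y) :=
  LinearMap.ext fun ν => ν.2.2.2 g hg x y

theorem evl_span [IsTree X] {ι : Type} [Fintype ι] {a : ι → G} (ha : ∀ i, a i ∈ U) {x0 : X}
    {N : ℕ} (hC : Core a x0 N) (F : Finset X) :
    ∃ S : Finset (Module.Dual ℝ (Add X U)), S.card ≤ Fintype.card ι + N ∧
      ∀ p ∈ F, ∀ q ∈ F, evl U (p, q) ∈ Submodule.span ℝ (S : Set (Module.Dual ℝ (Add X U))) := by
  classical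
  obtain ⟨V, hF, h0, h1, hM, R, hR, hV⟩ := hC F
  set S := Finset.univ.image (fun i => evl U (x0, a i • x0)) ∪ R.image fun r => evl U (x0, r)
    with hS
  refine ⟨S, (Finset.card_union_le _ _).trans (add_le_add
    (Finset.card_image_le.trans Finset.card_univ.le) (Finset.card_image_le.trans hR)), ?_⟩
  set L : Submodule ℤ (Module.Dual ℝ (Add X U)) :=
    Submodule.span ℤ (((V ×ˢ V).image (evl U) : Finset _) : Set _) with hL
  set Q : Submodule ℤ (Module.Dual ℝ (Add X U)) :=
    Submodule.span ℤ (S : Set _) ⊔ Ideal.span {(2 : ℤ)} • L with hQ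
  have mL : ∀ p ∈ V, ∀ q ∈ V, evl U (p, q) ∈ L := fun p hp q hq =>
    Submodule.subset_span (Finset.mem_coe.2
      (Finset.mem_image_of_mem _ (Finset.mem_product.2 ⟨hp, hq⟩)))
  have tri : ∀ p ∈ V, ∀ q ∈ V, ∀ r ∈ V, evl U (p, q) ∈ Q → evl U (q, r) ∈ Q →
      evl U (p, r) ∈ Q := by
    intro p hp q hq r hr k1 k2
    obtain ⟨m, m1, m2, m3⟩ := IsTree.ex_med p q r
    have hm : m ∈ V := hM p hp q hq r hr m m1 m2 m3
    have k3 : (2 : ℤ) • evl U (q, m) ∈ Q := Submodule.mem_sup_right
      (Submodule.smul_mem_smul (Ideal.mem_span_singleton_self _) (mL q hq m hm))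
    have : evl U (p, r) = evl U (p, q) + evl U (q, r) - (2 : ℤ) • evl U (q, m) := by
      rw [← evl_add U m1, ← evl_add U m2, ← evl_add U m3, evl_symm U m q, two_smul]
      abel
    rw [this]
    exact Q.sub_mem (Q.add_mem k1 k2) k3
  have gen : ∀ i, evl U (x0, a i • x0) ∈ Q := fun i => Submodule.mem_sup_left
    (Submodule.subset_span (Finset.mem_coe.2 (Finset.mem_union_left _
      (Finset.mem_image_of_mem _ (Finset.mem_univ i)))))
  have eqv : ∀ r v, Relation.EqvGen (fun p q => p ∈ V ∧ q ∈ V ∧ ∃ i, q = a i • p) r v →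
      (evl U (x0, r) ∈ Q ↔ evl U (x0, v) ∈ Q) := by
    intro r v h
    induction h with
    | rel p q h =>
      obtain ⟨hp, hq, i, rfl⟩ := h
      refine ⟨fun k => tri _ h0 _ (h1 i) _ hq (gen i) ?_, fun k => ?_⟩
      · rwa [evl_smul U (ha i)]
      · rw [← evl_smul U (ha i)]
        exact tri _ (h1 i) _ h0 _ hq (evl_symm U x0 (a i • x0) ▸ gen i) k
    | refl => rfl
    | symm _ _ _ ih => exact ih.symm
    | trans _ _ _ _ _ h1 h2 => exact h1.trans h2
  have base : ∀ v ∈ V, evl U (x0, v) ∈ Q := by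
    intro v hv
    obtain ⟨r, hr, h⟩ := hV v hv
    exact (eqv r v h).1 (Submodule.mem_sup_left (Submodule.subset_span (Finset.mem_coe.2
      (Finset.mem_union_right _ (Finset.mem_image_of_mem _ hr)))))
  have hLQ : L ≤ Q := by
    refine Submodule.span_le.2 fun f hf => ?_
    obtain ⟨⟨p, q⟩, hpq, rfl⟩ := Finset.mem_image.1 (Finset.mem_coe.1 hf)
    obtain ⟨hp, hq⟩ := Finset.mem_product.1 hpq
    exact tri p hp x0 h0 q hq (evl_symm U x0 p ▸ base p hp) (base q hq)
  obtain ⟨r, hr1, hr2⟩ := Submodule.exists_sub_one_mem_and_smul_le_of_fg_of_le_sup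
    (Submodule.fg_span (Finset.finite_toSet _)) le_rfl hLQ
  have hr0 : (r : ℝ) ≠ 0 := by
    obtain ⟨c, hc⟩ := Ideal.mem_span_singleton'.1 hr1
    have : r ≠ 0 := by omega
    exact_mod_cast this
  intro p hp q hq
  have k1 := hr2 (Submodule.smul_mem_pointwise_smul _ r _ (mL p (hF hp) q (hF hq)))
  have k2 := Submodule.span_subset_span ℤ ℝ _ k1
  rw [← Int.cast_smul_eq_zsmul ℝ] at k2
  exact (Submodule.smul_mem_iff _ hr0).1 k2

/-- (R): finite dimension. -/
theorem finite_add [IsTree X] {ι : Type} [Fintype ι] {a : ι → G} (ha : ∀ i, a i ∈ U) {x0 : X}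
    {N : ℕ} (hC : Core a x0 N) : FiniteDimensional ℝ (Add X U) := by
  classical
  obtain ⟨b, hb, hsp, hli⟩ := exists_linearIndependent ℝ (Set.range (evl (X := X) U))
  have hfin : b.Finite := by
    by_contra hinf
    obtain ⟨t, ht, hcard⟩ := Set.Infinite.exists_subset_card_eq hinf (Fintype.card ι + N + 1)
    choose pr hpr using fun f : t => hb (ht f.2)
    obtain ⟨S, hS, hmem⟩ := evl_span U ha hC
      (Finset.univ.image (fun f => (pr f).1) ∪ Finset.univ.image fun f => (pr f).2)
    have h1 : LinearIndependent ℝ (fun f : t => (f : Module.Dual ℝ (Add X U))) :=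
      hli.comp (fun f : t => (⟨f, ht f.2⟩ : b)) fun f g h =>
        Subtype.ext (congrArg (fun z : b => z.1) h)
    have h2 := linearIndependent_le_span' _ h1 (S : Set _) (by
      rintro _ ⟨f, rfl⟩
      change (f : Module.Dual ℝ (Add X U)) ∈ _
      rw [← hpr f]
      exact hmem _ (Finset.mem_union_left _ (Finset.mem_image_of_mem _ (Finset.mem_univ f))) _
        (Finset.mem_union_right _ (Finset.mem_image_of_mem _ (Finset.mem_univ f))))
    simp only [Cardinal.mk_fintype, Fintype.card_coe, Finset.coe_sort_coe, Nat.cast_le] at h2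
    omega
  have := hfin.to_subtype
  refine Module.Finite.of_injective (LinearMap.pi fun f : b => (f : Module.Dual ℝ (Add X U))) ?_
  rw [injective_iff_map_eq_zero]
  intro ν hν
  refine Subtype.ext (funext fun p => ?_)
  have h1 : Submodule.span ℝ b ≤ LinearMap.ker (Module.Dual.eval ℝ _ ν) :=
    Submodule.span_le.2 fun f hf => congrFun hν ⟨f, hf⟩
  rw [hsp] at h1
  exact h1 (Submodule.subset_span ⟨p, rfl⟩)

end

end Pool.Agent.MP_3ce0a0_al.Q2T6L
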